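import Mathlib
import Pool.Agent.H5.Delta

open Set Filter Topology MeasureTheory

namespace Pool.Agent.Results.MP_ee4cf4_an.Yes

open Pool.Agent.H5.Delta

universe u

variable {X : Type u} [NormedAddCommGroup X] [NormedSpace ℝ X]

/-- `J` is `[α,∞)`, `(α,∞)` or `ℝ`. -/
def Admissible (J : Set ℝ) : Prop := (∃ α, J = Ici α) ∨ (∃ α, J = Ioi α) ∨ J = univ

/-- bounded and uniformly continuous on `J` -/
def BUC (J : Set ℝ) (u : ℝ → X) : Prop :=
  UniformContinuousOn u J ∧ ∃ C, ∀ t ∈ J, ‖u t‖ ≤ C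

/-- membership in `BUC + cos(t²) BUC` (only the values on `J` matter) -/
def Acos (J : Set ℝ) (φ : ℝ → X) : Prop :=
  ∃ u v : ℝ → X, BUC J u ∧ BUC J v ∧ ∀ t ∈ J, φ t = u t + Real.cos (t ^ 2) • v t

/-- Bochner integrable on every compact subinterval of `J` -/
def L1loc (J : Set ℝ) (f : ℝ → X) : Prop :=
  ∀ a b, Icc a b ⊆ J → IntegrableOn f (Icc a b)

/-- Bochner measurable on `J` and bounded everywhere on `J` -/
def Linf (J : Set ℝ) (f : ℝ → X) : Prop :=
  AEStronglyMeasurable f (volume.restrict J) ∧ ∃ C, ∀ t ∈ J, ‖f t‖ ≤ C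

/-- the difference `Δ_a f` -/
def diff (a : ℝ) (f : ℝ → X) : ℝ → X := fun t => f (t + a) - f t

/-- the mean `M_h f` -/
noncomputable def mean (h : ℝ) (f : ℝ → X) : ℝ → X := fun t => h⁻¹ • ∫ s in t..(t + h), f s

theorem small_of_sin {J : Set ℝ} (hJ : Up J) {U V w : ℝ → X} (hU : UniformContinuousOn U J)
    (hV : UniformContinuousOn V J) (hw : UniformContinuousOn w J)
    (h : ∀ t ∈ J, Real.sin (t ^ 2) • w t = U t + Real.cos (t ^ 2) • V t) : Small J w := by
  intro ε hε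
  obtain ⟨δ₁, hδ₁, H₁⟩ := uc_eps hU (ε := ε / 4) (by positivity)
  obtain ⟨δ₂, hδ₂, H₂⟩ := uc_eps hV (ε := ε / 4) (by positivity)
  obtain ⟨δ₃, hδ₃, H₃⟩ := uc_eps hw (ε := ε / 4) (by positivity)
  obtain ⟨R, hR⟩ := exists_sq_phase (δ := min δ₁ (min δ₂ δ₃)) (by positivity)
  refine ⟨R, fun t ht hRt => ?_⟩
  have near : ∀ s ∈ Icc t (t + min δ₁ (min δ₂ δ₃)), s ∈ J ∧ ‖U t - U s‖ ≤ ε / 4 ∧
      ‖V t - V s‖ ≤ ε / 4 ∧ ‖w t - w s‖ ≤ ε / 4 := by
    intro s hs
    have hsJ : s ∈ J := by simpa using hJ t ht (s - t) (by linarith [hs.1])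
    have hd : |t - s| ≤ min δ₁ (min δ₂ δ₃) := by
      rw [abs_sub_comm, abs_of_nonneg (by linarith [hs.1])]; linarith [hs.2]
    exact ⟨hsJ, H₁ t ht s hsJ (hd.trans (min_le_left _ _)),
      H₂ t ht s hsJ (hd.trans ((min_le_right _ _).trans (min_le_left _ _))),
      H₃ t ht s hsJ (hd.trans ((min_le_right _ _).trans (min_le_right _ _)))⟩
  obtain ⟨s₁, hs₁, k₁, e₁⟩ := hR t hRt 0
  obtain ⟨s₂, hs₂, k₂, e₂⟩ := hR t hRt Real.pi
  obtain ⟨s₃, hs₃, k₃, e₃⟩ := hR t hRt (Real.pi / 2)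
  obtain ⟨j₁, a₁, b₁, -⟩ := near s₁ hs₁
  obtain ⟨j₂, a₂, b₂, -⟩ := near s₂ hs₂
  obtain ⟨j₃, a₃, -, c₃⟩ := near s₃ hs₃
  have f₁ := h s₁ j₁
  have f₂ := h s₂ j₂
  have f₃ := h s₃ j₃
  rw [e₁, Real.sin_add_int_mul_two_pi, Real.cos_add_int_mul_two_pi] at f₁
  rw [e₂, Real.sin_add_int_mul_two_pi, Real.cos_add_int_mul_two_pi] at f₂
  rw [e₃, Real.sin_add_int_mul_two_pi, Real.cos_add_int_mul_two_pi] at f₃
  simp only [Real.sin_zero, Real.cos_zero, Real.sin_pi, Real.cos_pi, Real.sin_pi_div_two,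
    Real.cos_pi_div_two, zero_smul, one_smul, neg_smul, add_zero] at f₁ f₂ f₃
  have g₁ : (2 : ℝ) • U t = (U t - U s₁) + (V t - V s₁) + (U t - U s₂) - (V t - V s₂) := by
    have e1 : V s₁ = -U s₁ := by rw [eq_neg_iff_add_eq_zero, add_comm]; exact f₁.symm
    have e2 : V s₂ = U s₂ := by
      have := f₂.symm; rw [add_neg_eq_zero] at this; exact this.symm
    rw [e1, e2, two_smul]; abel
  have g₂ : 2 * ‖U t‖ ≤ ε := by
    have : ‖(2 : ℝ) • U t‖ ≤ ε / 4 + ε / 4 + ε / 4 + ε / 4 := by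
      rw [g₁]
      exact (norm_sub_le _ _).trans (add_le_add ((norm_add_le _ _).trans
        (add_le_add ((norm_add_le _ _).trans (add_le_add a₁ b₁)) a₂)) b₂)
    rw [norm_smul] at this
    simp only [Real.norm_ofNat] at this
    linarith
  have g₃ : w t = (w t - w s₃) - (U t - U s₃) + U t := by rw [f₃]; abel
  rw [g₃]
  refine (norm_add_le _ _).trans ?_
  have := (norm_sub_le (w t - w s₃) (U t - U s₃)).trans (add_le_add c₃ a₃)
  linarith

theorem uc_trig {J : Set ℝ} {F : ℝ → ℝ} (hF : LipschitzWith 1 F) (a : ℝ) (ha : 0 < a) :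
    UniformContinuousOn (fun t => F (2 * a * t + a ^ 2)) J :=
  uc_comp (K := univ) (σ := fun t => 2 * a * t + a ^ 2) (L := 2 * a) (by positivity)
    hF.uniformContinuous.uniformContinuousOn (fun s t => by
      rw [show 2 * a * s + a ^ 2 - (2 * a * t + a ^ 2) = 2 * a * (s - t) by ring, abs_mul,
        abs_of_pos (by positivity)]) (fun _ _ => trivial)

theorem buc_of_translates {J : Set ℝ} (hJ : Up J) (hB : Back J) {φ : ℝ → X} (h0 : Acos J φ)
    (h1 : ∀ a > 0, Acos J (fun t => φ (t + a))) : BUC J φ := by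
  obtain ⟨u, v, hu, hv, e⟩ := h0
  have hs : Small J v := by
    intro ε hε
    obtain ⟨δ, hδ, H⟩ := uc_eps hv.1 (ε := ε / 2) (by positivity)
    set a := Real.pi / δ with ha_def
    have ha : 0 < a := div_pos Real.pi_pos hδ
    obtain ⟨u', v', hu', hv', e'⟩ := h1 a ha
    have hvb : Bdd J (fun t => v (t + a)) := by
      obtain ⟨C, hC⟩ := hv.2
      exact ⟨C, fun t ht => hC _ (hJ t ht a ha.le)⟩
    have hw : Small J (fun t => Real.sin (2 * a * t + a ^ 2) • v (t + a)) := by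
      refine small_of_sin hJ (U := fun t => u (t + a) - u' t)
        (V := fun t => Real.cos (2 * a * t + a ^ 2) • v (t + a) - v' t)
        (uc_sub (uc_shift hJ hu.1 ha.le) hu'.1)
        (uc_sub (uc_smul (uc_trig Real.lipschitzWith_cos a ha) (uc_shift hJ hv.1 ha.le)
          ⟨1, fun t _ => Real.abs_cos_le_one _⟩ hvb) hv'.1)
        (uc_smul (uc_trig Real.lipschitzWith_sin a ha) (uc_shift hJ hv.1 ha.le)
          ⟨1, fun t _ => Real.abs_sin_le_one _⟩ hvb) ?_
      intro t ht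
      have i1 := e (t + a) (hJ t ht a ha.le)
      have i2 := e' t ht
      simp only at i2
      rw [i2, show (t + a) ^ 2 = t ^ 2 + (2 * a * t + a ^ 2) by ring, Real.cos_add, sub_smul,
        mul_smul, mul_smul] at i1
      rw [smul_sub]
      have i3 : u (t + a) = u' t + Real.cos (t ^ 2) • v' t -
          (Real.cos (t ^ 2) • Real.cos (2 * a * t + a ^ 2) • v (t + a) -
            Real.sin (t ^ 2) • Real.sin (2 * a * t + a ^ 2) • v (t + a)) := by
        rw [i1]; abel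
      rw [i3]; abel
    obtain ⟨R₁, hR₁⟩ := hw (ε / 2) (by positivity)
    obtain ⟨R₂, hR₂⟩ := hB a
    refine ⟨max R₂ (R₁ + a + δ), fun t ht hR => ?_⟩
    have hs0 : t - a ∈ J := hR₂ t ht ((le_max_left _ _).trans hR)
    obtain ⟨s, hs, k, hk⟩ := exists_phase (ψ := fun s => 2 * a * s + a ^ 2) (by fun_prop)
      (t := t - a) hδ.le (by
        rw [show 2 * a * (t - a + δ) + a ^ 2 - (2 * a * (t - a) + a ^ 2) = 2 * (a * δ) by ring,
          show a * δ = Real.pi by rw [ha_def]; field_simp, abs_of_pos (by positivity)])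
      (Real.pi / 2)
    have hsJ : s ∈ J := by simpa using hJ _ hs0 (s - (t - a)) (by linarith [hs.1])
    have hR' := (le_max_right _ _).trans hR
    have b1 := hR₁ s hsJ (by
      cases abs_cases t <;> cases abs_cases s <;> linarith [hs.1, hs.2])
    simp only at hk b1
    rw [hk, Real.sin_add_int_mul_two_pi, Real.sin_pi_div_two, one_smul] at b1
    have b2 := H t ht (s + a) (hJ s hsJ a ha.le) (by
      rw [abs_le]; constructor <;> linarith [hs.1, hs.2])
    calc ‖v t‖ = ‖(v t - v (s + a)) + v (s + a)‖ := by congr 1; abel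
      _ ≤ _ := (norm_add_le _ _).trans (by linarith)
  refine ⟨uc_congr (uc_add hu.1 (uc_smul_small (g := fun t => Real.cos (t ^ 2)) (by fun_prop)
    (fun t => Real.abs_cos_le_one _) hv.1 hv.2 hs)) (fun t ht => (e t ht).symm), ?_⟩
  obtain ⟨A, hA⟩ := hu.2
  obtain ⟨B, hB'⟩ := hv.2
  refine ⟨A + B, fun t ht => ?_⟩
  rw [e t ht]
  refine (norm_add_le _ _).trans (add_le_add (hA t ht) ?_)
  rw [norm_smul]
  calc ‖Real.cos (t ^ 2)‖ * ‖v t‖ ≤ 1 * ‖v t‖ := by gcongr; exact Real.abs_cos_le_one _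
    _ ≤ B := by rw [one_mul]; exact hB' t ht

theorem buc_sub {J : Set ℝ} {u v : ℝ → X} (hu : BUC J u) (hv : BUC J v) :
    BUC J (fun t => u t - v t) := by
  obtain ⟨A, hA⟩ := hu.2
  obtain ⟨B, hB⟩ := hv.2
  exact ⟨uc_sub hu.1 hv.1, A + B, fun t ht =>
    (norm_sub_le _ _).trans (add_le_add (hA t ht) (hB t ht))⟩

theorem acos_of_buc {J : Set ℝ} {u : ℝ → X} (hu : BUC J u) : Acos J u :=
  ⟨u, fun _ => 0, hu, ⟨uniformContinuous_const.uniformContinuousOn, 0, by simp⟩, by simp⟩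

theorem buc_diff {J : Set ℝ} (hJ : Up J) (hB : Back J) {f : ℝ → X}
    (h : ∀ a > 0, Acos J (diff a f)) {b : ℝ} (hb : 0 < b) : BUC J (diff b f) := by
  refine buc_of_translates hJ hB (h b hb) fun a ha => ?_
  obtain ⟨u, v, hu, hv, e⟩ := h (a + b) (by positivity)
  obtain ⟨u', v', hu', hv', e'⟩ := h a ha
  refine ⟨_, _, buc_sub hu hu', buc_sub hv hv', fun t ht => ?_⟩
  have i1 := e t ht
  have i2 := e' t ht
  simp only [diff] at i1 i2 ⊢
  rw [smul_sub, add_assoc]
  calc f (t + (a + b)) - f (t + a) = (f (t + (a + b)) - f t) - (f (t + a) - f t) := by abel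
    _ = _ := by rw [i1, i2]; abel

theorem buc_sub_mean [CompleteSpace X] {J : Set ℝ} (hJ : Up J) {f : ℝ → X} (hf : L1loc J f)
    (h : ∀ a > 0, BUC J (diff a f)) {b : ℝ} (hb : 0 < b) :
    BUC J (fun t => f t - mean b f t) := by
  obtain ⟨C, hC⟩ := unif_bound hJ hf 0 0 (fun a ha => (h a ha).1.continuousOn) (fun a ha => by
    obtain ⟨C, hC⟩ := (h a ha).2
    exact ⟨C, fun s hs _ _ _ => by simpa [diff] using hC s hs⟩) hb
  have hC' : ∀ a ∈ Ioc 0 b, ∀ s ∈ J, ‖f (s + a) - f s‖ ≤ C := fun a ha s hs => by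
    simpa using hC a ha s hs s hs (by simp)
  have h1 : UniformContinuousOn (fun t => ∫ a in Ioc 0 b, (f (t + a) - f t)) J :=
    uc_integral (Φ := fun a t => f (t + a) - f t) (C := C + C) (fun a ha => (h a ha.1).1)
      (fun t ht => integrableOn_shift hJ hf ht hb)
      (fun a ha s hs t ht _ => (norm_sub_le _ _).trans (add_le_add (hC' a ha s hs) (hC' a ha t ht)))
  refine ⟨uc_congr (((uniformContinuous_const_smul (-b⁻¹)).comp_uniformContinuousOn h1))
    (fun t ht => (sub_mean hJ hf ht hb).symm), ‖-b⁻¹‖ * (C * volume.real (Ioc 0 b)),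
    fun t ht => ?_⟩
  simp only [mean]
  rw [sub_mean hJ hf ht hb, norm_smul]
  gcongr
  exact norm_setIntegral_le_of_norm_le_const measure_Ioc_lt_top fun a ha => hC' a ha t ht

theorem buc_mean {J : Set ℝ} (hJ : Up J) {f : ℝ → X} (hf : L1loc J f) {C : ℝ}
    (hC : ∀ t ∈ J, ‖f t‖ ≤ C) : BUC J (mean 1 f) := by
  have hI : ∀ s ∈ J, ∀ t ∈ J, uIcc s t ⊆ J := by
    intro s hs t ht x hx
    rw [mem_uIcc] at hx
    rcases hx with hx | hx
    · simpa using hJ s hs (x - s) (by linarith [hx.1])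
    · simpa using hJ t ht (x - t) (by linarith [hx.1])
  have hint : ∀ s ∈ J, ∀ t ∈ J, IntervalIntegrable f volume s t := fun s hs t ht =>
    (hf _ _ (hI s hs t ht)).intervalIntegrable
  have hbd : ∀ s ∈ J, ∀ t ∈ J, ‖∫ x in s..t, f x‖ ≤ C * |t - s| := fun s hs t ht =>
    intervalIntegral.norm_integral_le_of_norm_le_const fun x hx =>
      hC x (hI s hs t ht (uIoc_subset_uIcc hx))
  refine ⟨uc_of_eps fun ε hε => ⟨ε / (2 * (|C| + 1)), by positivity, fun s hs t ht hst => ?_⟩,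
    C, fun t ht => ?_⟩
  · have hs1 := hJ s hs 1 zero_le_one
    have ht1 := hJ t ht 1 zero_le_one
    have e : mean 1 f s - mean 1 f t = (∫ x in s..t, f x) - ∫ x in (s + 1)..(t + 1), f x := by
      simp only [mean, inv_one, one_smul]
      have i1 := intervalIntegral.integral_add_adjacent_intervals (hint s hs t ht)
        (hint t ht _ ht1)
      have i2 := intervalIntegral.integral_add_adjacent_intervals (hint s hs _ hs1)
        (hint _ hs1 _ ht1)
      rw [← i2] at i1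
      rw [sub_eq_sub_iff_add_eq_add, ← i1]
    rw [e]
    have b1 := hbd s hs t ht
    have b2 := hbd _ hs1 _ ht1
    rw [show t + 1 - (s + 1) = t - s by ring] at b2
    rw [abs_sub_comm] at hst
    have b3 : C * |t - s| ≤ (|C| + 1) * (ε / (2 * (|C| + 1))) := by
      gcongr
      linarith [le_abs_self C]
    have b4 : (|C| + 1) * (ε / (2 * (|C| + 1))) = ε / 2 := by field_simp
    refine (norm_sub_le _ _).trans (by linarith)
  · simpa [mean] using hbd t ht _ (hJ t ht 1 zero_le_one)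

theorem result (J : Set ℝ) (hJ : Admissible J) (X : Type u) [NormedAddCommGroup X]
    [NormedSpace ℝ X] [CompleteSpace X] :
    (∀ f : ℝ → X, L1loc J f → (∀ a > 0, Acos J (diff a f)) →
      ∀ h > 0, Acos J (fun t => f t - mean h f t)) ∧
    (∀ f : ℝ → X, Linf J f → (∀ a > 0, Acos J (diff a f)) → Acos J f) := by
  obtain ⟨hU, hB⟩ := up_back hJ
  refine ⟨fun f hf hd h hh => acos_of_buc (buc_sub_mean hU hf
    (fun a ha => buc_diff hU hB hd ha) hh), fun f hf hd => ?_⟩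
  obtain ⟨hm, C, hC⟩ := hf
  have hf : L1loc J f := by
    intro a b hab
    refine Integrable.of_bound (hm.mono_measure (Measure.restrict_mono hab le_rfl)) C ?_
    filter_upwards [ae_restrict_mem measurableSet_Icc] with x hx using hC x (hab hx)
  have h1 := buc_sub_mean hU hf (fun a ha => buc_diff hU hB hd ha) one_pos
  have h2 := buc_mean hU hf hC
  exact acos_of_buc ⟨uc_congr (uc_add h1.1 h2.1) (fun t _ => by simp), C, hC⟩

end Pool.Agent.Results.MP_ee4cf4_an.Yes
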